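import Pool.Agent.Lib_helper79.Flowchart.Proofs

/-!
The time bounds at which flowchart complexity measures are finitely invariant (MP_091941_lc).

The definitions (interpretations, flowcharts, computations and their lengths, complexity classes)
are in `Pool.Agent.Lib_helper79.Flowchart.Defs`, the proofs in
`Pool.Agent.Lib_helper79.Flowchart.Proofs`.
-/

open Filter Function

namespace Pool.Agent.Results.MP_091941_lc.ExactDescription

open Pool.Agent.Lib_helper79.Flowchart

/-- Let `F` be a finite universal interpretation, all variables being allowed as output variables.
If `Φ(t)` is nonempty, then `Φ(t)` is closed under finite variation if and only if the total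
recursive bound `t` tends to infinity. The direction `only if` holds for every set `O` of variables
that halt nodes may output, and the direction `if` for every universal `F`, finite or not. -/
theorem result :
    (∀ (F : Interp) (O : Set ℕ), F.fn.Finite → F.pr.Finite → ∀ t : ℕ → ℕ, Computable t →
      ¬ Tendsto t atTop atTop → (∃ f, InClass F O t f) → ¬ InvariantAt F O t) ∧
    (∀ F : Interp, Universal F Set.univ → ∀ t : ℕ → ℕ, Computable t →
      Tendsto t atTop atTop → InvariantAt F Set.univ t) := by
  refine ⟨?_, ?_⟩
  · rintro F O hfn hpr t - ht ⟨f, hf⟩
    exact not_invariantAt hfn hpr ht hf
  · intro F hF t _ ht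
    exact invariantAt_of_tendsto hF ht

end Pool.Agent.Results.MP_091941_lc.ExactDescription
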