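import Pool.Agent.Lib_helper79.Flowchart.Proofs

/-!
Finite invariance of flowchart complexity measures (MP_091941_lc).

The definitions (interpretations, flowcharts, computations and their lengths, complexity classes)
are in `Pool.Agent.Lib_helper79.Flowchart.Defs`, the proofs in
`Pool.Agent.Lib_helper79.Flowchart.Proofs`.
-/

open Filter Function

namespace Pool.Agent.Results.MP_091941_lc.FiniteInvariance

open Pool.Agent.Lib_helper79.Flowchart

/-- There is a finite universal interpretation, and no universal interpretation has a finitely
invariant flowchart measure; both hold whatever set `O` of variables the halt nodes may output. (The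
exact description of the bounds `t` for which invariance fails is in
`Pool.Agent.Lib_helper79.Flowchart.Exact`.) -/
theorem result :
    (∃ F : Interp, F.fn.Finite ∧ F.pr.Finite ∧ ∀ O : Set ℕ, O.Nonempty → Universal F O) ∧
    ∀ (F : Interp) (O : Set ℕ), Universal F O → ¬ FinitelyInvariant F O := by
  refine ⟨⟨F₀, ?_, ?_, F₀_universal⟩, ?_⟩
  · exact (Set.finite_singleton _).insert _
  · exact Set.finite_singleton _
  · intro F O hF
    exact not_finitelyInvariant hF.nonempty

end Pool.Agent.Results.MP_091941_lc.FiniteInvariance
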